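import Mathlib

namespace Pool.Agent.Results.MP_fa43b0_al.SymmetricIdentities

universe u

/-- lattice terms in the variables `α` -/
inductive LTerm (α : Type) : Type
  | var : α → LTerm α
  | sup : LTerm α → LTerm α → LTerm α
  | inf : LTerm α → LTerm α → LTerm α

/-- value of a term in a lattice under an assignment -/
def LTerm.eval {α : Type} {M : Type u} [Lattice M] (v : α → M) : LTerm α → M
  | .var i => v i
  | .sup s t => s.eval v ⊔ t.eval v
  | .inf s t => s.eval v ⊓ t.eval v

/-- replace every variable `x i` by `x (f i)` -/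
def LTerm.rename {α β : Type} (f : α → β) : LTerm α → LTerm β
  | .var i => .var (f i)
  | .sup s t => .sup (s.rename f) (t.rename f)
  | .inf s t => .inf (s.rename f) (t.rename f)

/-- the identity `t ≈ s` holds in `M` -/
def Holds {α : Type} (M : Type u) [Lattice M] (t s : LTerm α) : Prop :=
  ∀ v : α → M, t.eval v = s.eval v

/-- `t = t_σ` in the free lattice for every permutation `σ` -/
def IsSymmetric {n : ℕ} (t : LTerm (Fin n)) : Prop :=
  ∀ σ : Equiv.Perm (Fin n), ∀ (M : Type u) [Lattice M], Holds M (t.rename σ) t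

/-- `M` lies in the variety defined by the set `E` of identities -/
def InVariety (E : Set (Σ n : ℕ, LTerm (Fin n) × LTerm (Fin n))) (M : Type u) [Lattice M] :
    Prop :=
  ∀ e ∈ E, Holds M e.2.1 e.2.2

/-- `L` satisfies every symmetric identity valid in the variety defined by `E` -/
def InSymmetricPart (E : Set (Σ n : ℕ, LTerm (Fin n) × LTerm (Fin n))) (L : Type u)
    [Lattice L] : Prop :=
  ∀ (n : ℕ), 1 ≤ n → ∀ t s : LTerm (Fin n), IsSymmetric.{u} t → IsSymmetric.{u} s →
    (∀ (M : Type u) [Lattice M], InVariety E M → Holds M t s) → Holds L t s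

theorem eval_rename {α β : Type} {M : Type u} [Lattice M] (f : α → β) (v : β → M)
    (t : LTerm α) : (t.rename f).eval v = t.eval (v ∘ f) := by
  induction t with
  | var i => rfl
  | sup s t hs ht => simp only [LTerm.rename, LTerm.eval, hs, ht]
  | inf s t hs ht => simp only [LTerm.rename, LTerm.eval, hs, ht]

theorem exists_sup {α ι : Type} (s : Finset ι) (hs : s.Nonempty) (f : ι → LTerm α) :
    ∃ t : LTerm α, ∀ (M : Type u) [Lattice M] (v : α → M),
      t.eval v = s.sup' hs (fun i => (f i).eval v) := by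
  induction hs using Finset.Nonempty.cons_induction with
  | singleton a => exact ⟨f a, fun M _ v => by simp⟩
  | cons a s ha hs ih =>
    obtain ⟨t, ht⟩ := ih
    exact ⟨.sup (f a) t, fun M _ v => by rw [Finset.sup'_cons hs]; simp only [LTerm.eval, ht]⟩

theorem exists_inf {α ι : Type} (s : Finset ι) (hs : s.Nonempty) (f : ι → LTerm α) :
    ∃ t : LTerm α, ∀ (M : Type u) [Lattice M] (v : α → M),
      t.eval v = s.inf' hs (fun i => (f i).eval v) := by
  induction hs using Finset.Nonempty.cons_induction with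
  | singleton a => exact ⟨f a, fun M _ v => by simp⟩
  | cons a s ha hs ih =>
    obtain ⟨t, ht⟩ := ih
    exact ⟨.inf (f a) t, fun M _ v => by rw [Finset.inf'_cons hs]; simp only [LTerm.eval, ht]⟩

/-- order statistic terms -/
theorem exists_stat (N k : ℕ) (hk : 1 ≤ k) (hkN : k ≤ N) (L : Type u) [Lattice L] :
    ∃ t : LTerm (Fin N), ∀ v : Fin N → L,
      (∀ (A : Finset (Fin N)) (y : L), A.card = k → (∀ i ∈ A, y ≤ v i) → y ≤ t.eval v) ∧
      (∀ (B : Finset (Fin N)) (z : L), N < B.card + k → (∀ i ∈ B, v i ≤ z) → t.eval v ≤ z) := by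
  classical
  have hne : ∀ A : {A : Finset (Fin N) // A.card = k}, A.1.Nonempty := fun A =>
    Finset.card_pos.mp (by rw [A.2]; omega)
  choose m hm using fun A : {A : Finset (Fin N) // A.card = k} =>
    exists_inf.{u} A.1 (hne A) (fun i => LTerm.var i)
  have hU : (Finset.univ : Finset {A : Finset (Fin N) // A.card = k}).Nonempty := by
    obtain ⟨A, -, hA⟩ := Finset.exists_subset_card_eq (s := (Finset.univ : Finset (Fin N)))
      (n := k) (by simpa using hkN)
    exact ⟨⟨A, hA⟩, Finset.mem_univ _⟩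
  obtain ⟨t, ht⟩ := exists_sup.{u} Finset.univ hU m
  refine ⟨t, fun v => ⟨fun A y hA hy => ?_, fun B z hB hz => ?_⟩⟩
  · rw [ht]
    refine le_trans ?_ (Finset.le_sup' (fun A => (m A).eval v) (Finset.mem_univ ⟨A, hA⟩))
    rw [hm]
    exact Finset.le_inf' _ _ (fun i hi => hy i hi)
  · rw [ht]
    refine Finset.sup'_le _ _ (fun A _ => ?_)
    rw [hm]
    have : ¬ Disjoint A.1 B := by
      intro hd
      have h1 := Finset.card_union_of_disjoint hd
      have h2 := Finset.card_le_univ (A.1 ∪ B)
      rw [Fintype.card_fin, h1, A.2] at h2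
      omega
    obtain ⟨i, hiA, hiB⟩ := Finset.not_disjoint_iff.mp this
    exact le_trans (Finset.inf'_le (fun i => (LTerm.var i).eval v) hiA) (hz i hiB)

/-- join symmetrisation -/
theorem exists_symm (N : ℕ) (w : LTerm (Fin N)) :
    ∃ t : LTerm (Fin N), IsSymmetric.{u} t ∧ ∀ (M : Type u) [Lattice M] (v : Fin N → M),
      t.eval v = Finset.univ.sup' Finset.univ_nonempty
        (fun σ : Equiv.Perm (Fin N) => w.eval (v ∘ σ)) := by
  obtain ⟨t, ht⟩ := exists_sup.{u} (Finset.univ : Finset (Equiv.Perm (Fin N)))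
    Finset.univ_nonempty (fun σ => w.rename σ)
  simp only [eval_rename] at ht
  refine ⟨t, fun τ M _ v => ?_, ht⟩
  rw [eval_rename, ht, ht]
  apply le_antisymm
  · refine Finset.sup'_le _ _ (fun σ _ => ?_)
    exact Finset.le_sup' (fun σ : Equiv.Perm (Fin N) => w.eval (v ∘ σ)) (Finset.mem_univ (τ * σ))
  · refine Finset.sup'_le _ _ (fun σ _ => ?_)
    refine le_trans (le_of_eq ?_) (Finset.le_sup'
      (fun σ : Equiv.Perm (Fin N) => w.eval ((v ∘ τ) ∘ σ)) (Finset.mem_univ (τ⁻¹ * σ)))
    congr 1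
    funext i
    simp

theorem chain {E : Set (Σ n : ℕ, LTerm (Fin n) × LTerm (Fin n))} {L : Type u} [Lattice L]
    (h : InSymmetricPart E L) {N : ℕ} (hN : 1 ≤ N) (b : Fin N → L) (x y : L)
    (P Q : Equiv.Perm (Fin N) → LTerm (Fin N))
    (hP : ∀ σ, (P σ).eval (b ∘ σ) = y) (hQ : ∀ σ, (Q σ).eval (b ∘ σ) = x)
    (hPQ : ∀ σ, ∀ (M : Type u) [Lattice M], InVariety E M → Holds M (Q σ) (P σ))
    (S : Finset (Equiv.Perm (Fin N))) :
    ∀ α β : LTerm (Fin N),
      (∀ τ : Equiv.Perm (Fin N), x ≤ α.eval (b ∘ τ) ∧ α.eval (b ∘ τ) ≤ β.eval (b ∘ τ) ∧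
        β.eval (b ∘ τ) ≤ y) →
      (∀ τ : Equiv.Perm (Fin N), τ ∉ S → α.eval (b ∘ τ) = β.eval (b ∘ τ)) →
      Finset.univ.sup' Finset.univ_nonempty
          (fun σ : Equiv.Perm (Fin N) => α.eval (b ∘ σ)) =
        Finset.univ.sup' Finset.univ_nonempty
          (fun σ : Equiv.Perm (Fin N) => β.eval (b ∘ σ)) := by
  classical
  induction S using Finset.induction_on with
  | empty =>
    intro α β _ h2
    congr 1
    funext τ
    exact h2 τ (by simp)
  | insert σ S hσ ih =>
    intro α β h1 h2
    have e1 := ih α (.sup α (.inf (Q σ) β))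
      (fun τ => ⟨(h1 τ).1, le_sup_left,
        le_trans (sup_le (h1 τ).2.1 inf_le_right) (h1 τ).2.2⟩)
      (fun τ hτ => by
        simp only [LTerm.eval]
        by_cases hτσ : τ = σ
        · subst hτσ
          rw [hQ]
          exact (sup_eq_left.mpr (le_trans inf_le_left (h1 τ).1)).symm
        · rw [← h2 τ (by simp [hτ, hτσ])]
          exact (sup_eq_left.mpr inf_le_right).symm)
    have e2 := ih (.sup α (.inf (P σ) β)) β
      (fun τ => ⟨le_trans (h1 τ).1 le_sup_left, sup_le (h1 τ).2.1 inf_le_right, (h1 τ).2.2⟩)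
      (fun τ hτ => by
        simp only [LTerm.eval]
        by_cases hτσ : τ = σ
        · subst hτσ
          rw [hP, inf_eq_right.mpr (h1 τ).2.2]
          exact sup_eq_right.mpr (h1 τ).2.1
        · rw [← h2 τ (by simp [hτ, hτσ])]
          exact sup_eq_left.mpr inf_le_right)
    obtain ⟨t1, s1, ht1⟩ := exists_symm.{u} N (.sup α (.inf (Q σ) β))
    obtain ⟨t2, s2, ht2⟩ := exists_symm.{u} N (.sup α (.inf (P σ) β))
    have e3 := h N hN t1 t2 s1 s2 (fun M _ hM v => by
      rw [ht1, ht2]
      congr 1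
      funext τ
      simp only [LTerm.eval]
      rw [hPQ σ M hM]) b
    rw [ht1, ht2] at e3
    rw [e1, e3, e2]

theorem result (E : Set (Σ n : ℕ, LTerm (Fin n) × LTerm (Fin n))) (L : Type u) [Lattice L] :
    InVariety E L ↔ InSymmetricPart E L := by
  classical
  refine ⟨fun hL n _ t s _ _ hts => hts L hL, fun h => ?_⟩
  rintro ⟨n, p, q⟩ he a
  change p.eval a = q.eval a
  set x := p.eval a ⊓ q.eval a with hx
  set y := p.eval a ⊔ q.eval a with hy
  have hxy : x ≤ y := le_trans inf_le_left le_sup_left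
  let ι := Fin n ⊕ (Fin (n + 1) ⊕ Fin (2 * n + 2))
  have hc : Fintype.card ι = 4 * n + 3 := by
    simp only [ι, Fintype.card_sum, Fintype.card_fin]; omega
  let e : ι ≃ Fin (4 * n + 3) := Fintype.equivFinOfCardEq hc
  let b0 : ι → L := Sum.elim a (Sum.elim (fun _ => x) (fun _ => y))
  let b : Fin (4 * n + 3) → L := b0 ∘ e.symm
  obtain ⟨U, hU⟩ := exists_stat (4 * n + 3) (3 * n + 3) (by omega) (by omega) L
  obtain ⟨V, hV⟩ := exists_stat (4 * n + 3) (2 * n + 2) (by omega) (by omega) L
  have hUx : ∀ τ : Equiv.Perm (Fin (4 * n + 3)), U.eval (b ∘ τ) = x := by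
    intro τ
    apply le_antisymm
    · refine (hU _).2 (Finset.univ.map ((Function.Embedding.inl.trans
        Function.Embedding.inr).trans (e.trans τ.symm).toEmbedding)) x (by simp; omega) ?_
      intro i hi
      obtain ⟨j, -, rfl⟩ := Finset.mem_map.mp hi
      simp [b, b0]
    · refine (hU _).1 (Finset.univ.map (Function.Embedding.inr.trans
        (e.trans τ.symm).toEmbedding)) x (by simp; omega) ?_
      intro i hi
      obtain ⟨j, -, rfl⟩ := Finset.mem_map.mp hi
      rcases j with j | j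
      · simp [b, b0]
      · simpa [b, b0] using hxy
  have hVy : ∀ τ : Equiv.Perm (Fin (4 * n + 3)), V.eval (b ∘ τ) = y := by
    intro τ
    apply le_antisymm
    · refine (hV _).2 (Finset.univ.map ((Function.Embedding.inr.trans
        Function.Embedding.inr).trans (e.trans τ.symm).toEmbedding)) y (by simp; omega) ?_
      intro i hi
      obtain ⟨j, -, rfl⟩ := Finset.mem_map.mp hi
      simp [b, b0]
    · refine (hV _).1 (Finset.univ.map ((Function.Embedding.inr.trans
        Function.Embedding.inr).trans (e.trans τ.symm).toEmbedding)) y (by simp) ?_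
      intro i hi
      obtain ⟨j, -, rfl⟩ := Finset.mem_map.mp hi
      simp [b, b0]
  have hren : ∀ (σ : Equiv.Perm (Fin (4 * n + 3))) (t : LTerm (Fin n)),
      (t.rename (fun i => σ.symm (e (Sum.inl i)))).eval (b ∘ σ) = t.eval a := by
    intro σ t
    rw [eval_rename]
    congr 1
    funext i
    simp [b, b0]
  have key := chain h (by omega) b x y
    (fun σ => (LTerm.sup p q).rename (fun i => σ.symm (e (Sum.inl i))))
    (fun σ => (LTerm.inf p q).rename (fun i => σ.symm (e (Sum.inl i))))
    (fun σ => hren σ _) (fun σ => hren σ _)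
    (fun σ M _ hM v => by
      rw [eval_rename, eval_rename]
      have := hM _ he (v ∘ fun i => σ.symm (e (Sum.inl i)))
      simp only [LTerm.eval]
      change p.eval _ = q.eval _ at this
      rw [this, inf_idem, sup_idem])
    Finset.univ U V (fun τ => by rw [hUx, hVy]; exact ⟨le_rfl, hxy, le_rfl⟩)
    (fun τ hτ => absurd (Finset.mem_univ τ) hτ)
  simp only [hUx, hVy, Finset.sup'_const] at key
  exact inf_eq_sup.mp key

end Pool.Agent.Results.MP_fa43b0_al.SymmetricIdentities
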